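import Pool.Agent.Lib.MP_19cc1b_al.Defs
import Pool.Agent.Lib.MP_19cc1b_al.KE.Cyc

open scoped Pointwise
open Pool.Agent.Lib.MP_19cc1b_al Pool.Agent.Lib.MP_19cc1b_al.KE

namespace Pool.Agent.Results.MP_19cc1b_al.KeptEdges

/-- Let the finite group `G` be a product of pairwise permutable subgroups and let `(p,q)` be an
edge of its critical graph.  If the Sylow `p`-subgroups of `G` are cyclic, or if no product of two
factors has an edge `(p,r)` with `r ≠ q`, then `(p,q)` is an edge of a product of two factors. -/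
theorem result (n : ℕ) (hn : 2 ≤ n) (G : Type) [Group G] [Finite G] (H : Fin n → Subgroup G)
    (hperm : ∀ i j, (H i : Set G) * (H j : Set G) = (H j : Set G) * (H i : Set G))
    (hprod : ∀ g : G, ∃ x : Fin n → G, (∀ i, x i ∈ H i) ∧ g = (List.ofFn x).prod)
    (p q : ℕ) (hp : p.Prime) (hq : q.Prime) (hedge : ∃ S : Subgroup G, IsSchmidtPQ p q S)
    (h : (∀ P : Sylow p G, IsCyclic P) ∨
      ∀ r : ℕ, r.Prime → r ≠ q → ∀ i j, i < j → ¬ ∃ S : Subgroup G,
        (S : Set G) ⊆ (H i : Set G) * (H j : Set G) ∧ IsSchmidtPQ p r S) :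
    ∃ i j, i < j ∧ ∃ S : Subgroup G,
      (S : Set G) ⊆ (H i : Set G) * (H j : Set G) ∧ IsSchmidtPQ p q S := by
  have := Fact.mk hp
  have := Fact.mk hq
  obtain ⟨S, hS⟩ := hedge
  obtain ⟨hne, hF⟩ := act_of_schmidt hS
  by_contra hno
  have htop : Finset.univ.sup H = ⊤ := by
    refine eq_top_iff.2 fun g _ => ?_
    obtain ⟨x, hx, rfl⟩ := hprod g
    refine Subgroup.list_prod_mem _ fun y hy => ?_
    obtain ⟨i, rfl⟩ := List.mem_ofFn.1 hy
    exact Finset.le_sup (f := H) (Finset.mem_univ i) (hx i)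
  have key : ∀ r : ℕ, r.Prime → r ≠ p → (∀ i j, i < j → ¬ ∃ S : Subgroup G,
      (S : Set G) ⊆ (H i : Set G) * (H j : Set G) ∧ IsSchmidtPQ p r S) →
      ∀ i j, FrIn p r (H i ⊔ H j) := by
    intro r hr hrp hh
    have := Fact.mk hr
    have lt : ∀ i j, i < j → FrIn p r (H i ⊔ H j) := by
      intro i j hij
      by_contra hc
      obtain ⟨T, hT, hT'⟩ := schmidt_of_act hrp hc
      refine hh i j hij ⟨T, ?_, hT'⟩
      rw [← Pm.coe_sup (hperm i j)]
      exact hT
    have ne : ∀ i j, i ≠ j → FrIn p r (H i ⊔ H j) := fun i j hij =>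
      (lt_or_gt_of_ne hij).elim (lt i j) fun h' => sup_comm (H j) (H i) ▸ lt j i h'
    intro i j
    by_cases hij : i = j
    · have : Nontrivial (Fin n) := Fin.nontrivial_iff_two_le.2 hn
      obtain ⟨k, hk⟩ := exists_ne i
      exact (ne i k hk.symm).mono (hij ▸ sup_le le_sup_left le_sup_left)
    · exact ne i j hij
  have hq' := key q hq hne fun i j hij hh => hno ⟨i, j, hij, hh⟩
  rcases h with h | h
  · exact hF (frIn_of_cyc hne h hperm htop hq')
  · refine hF (frIn_of_pn hne hperm htop fun i j => ?_)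
    obtain ⟨K, hK⟩ := frob (p := p) _ (H i ⊔ H j : Subgroup G) rfl fun r hr hrp => by
      by_cases e : r = q
      · exact e ▸ (hq' i j).top
      · exact (key r hr hrp (h r hr e) i j).top
    refine ⟨K.map (Subgroup.subtype _), fun x => ⟨?_, fun hx => ?_⟩⟩
    · rintro ⟨y, hy, rfl⟩
      refine ⟨y.2, ?_⟩
      rw [Subgroup.coe_subtype, Subgroup.orderOf_coe]
      exact (hK y).1 hy
    · exact ⟨⟨x, hx.1⟩, (hK _).2 (by rw [← Subgroup.orderOf_coe]; exact hx.2), rfl⟩

end Pool.Agent.Results.MP_19cc1b_al.KeptEdges
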